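import Pool.Agent.H51.EI.TargetsB

/-! Row FTF of the board `exi_modules`: the family `FT` (adapted from
Pool/Agent/H70/EE5/FTF.lean). -/

set_option autoImplicit false

namespace Pool.Agent.H34.EI.FTF

open Pool.Agent.H51.EI Polynomial Finset
open Pool.Agent.H25.EE (Idx Ix mlt nd s0 s1 hn EX exo gt GG VJ thr phi bN bH)

private lemma thq_le (r : ℕ) (hr : 1 ≤ r) (J : ℕ) (hJ : 1 ≤ J)
    (hlog : 2278 * Real.log r ≤ Real.log J) : thq (r ^ 4) (r * J) ≤ thr J := by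
  have hr0 : (0 : ℝ) < r := by exact_mod_cast hr
  have hJ0 : (0 : ℝ) < J := by exact_mod_cast hJ
  have hlr : 0 ≤ Real.log r := Real.log_nonneg (by exact_mod_cast hr)
  unfold thq thr
  push_cast
  rw [Real.log_mul hr0.ne' hJ0.ne']
  have h1 : 712 / 200000 * ((r : ℝ) * J) ^ 4 / (r : ℝ) ^ 4 = 712 / 200000 * (J : ℝ) ^ 4 := by
    field_simp
  rw [h1]
  have h2 : 0 < (J : ℝ) ^ 4 := by positivity
  have h3 : 712 * (Real.log r + Real.log J) ≤ 713 * Real.log J := by linarith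
  calc 712 / 200000 * (J : ℝ) ^ 4 * (Real.log r + Real.log J)
      = (J : ℝ) ^ 4 / 200000 * (712 * (Real.log r + Real.log J)) := by ring
    _ ≤ (J : ℝ) ^ 4 / 200000 * (713 * Real.log J) := by gcongr
    _ = _ := by ring

private lemma hgt_le (r : ℕ) (hr : 1 ≤ r) (J : ℕ) (hJ : 1 ≤ J)
    (hlog : 2278 * Real.log r ≤ Real.log J) :
    1139 / 1000000000 * ((r * J : ℕ) : ℝ) ^ 6 * Real.log ((r * J : ℕ) : ℝ) / ((r ^ 4 : ℕ) : ℝ) ^ 2 ≤
      bH J / (r : ℝ) ^ 2 := by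
  have hr0 : (0 : ℝ) < r := by exact_mod_cast hr
  have hJ0 : (0 : ℝ) < J := by exact_mod_cast hJ
  unfold bH
  push_cast
  rw [Real.log_mul hr0.ne' hJ0.ne']
  have h1 : 1139 / 1000000000 * ((r : ℝ) * J) ^ 6 * (Real.log r + Real.log J) / ((r : ℝ) ^ 4) ^ 2 =
      1139 / 1000000000 * (J : ℝ) ^ 6 * (Real.log r + Real.log J) / (r : ℝ) ^ 2 := by
    field_simp
  rw [h1]
  apply div_le_div_of_nonneg_right _ (by positivity)
  have h3 : 2278 * (Real.log r + Real.log J) ≤ 2279 * Real.log J := by linarith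
  calc 1139 / 1000000000 * (J : ℝ) ^ 6 * (Real.log r + Real.log J)
      = (J : ℝ) ^ 6 / 2000000000 * (2278 * (Real.log r + Real.log J)) := by ring
    _ ≤ (J : ℝ) ^ 6 / 2000000000 * (2279 * Real.log J) := by gcongr
    _ = _ := by ring

private lemma phi_le (r : ℕ) (hr : 1 ≤ r) (J : ℕ) (hJ : 2 ≤ J) (ε v : ℝ) (hε : 0 < ε)
    (hlog : 2278 * Real.log r ≤ Real.log J) :
    phi ε J v ≤ phq (r ^ 4) (ε / (2 * (r : ℝ) ^ 8)) (r * J) v := by
  have hr0 : (0 : ℝ) < r := by exact_mod_cast hr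
  have hJ0 : (0 : ℝ) < J := by
    have : 0 < J := by omega
    exact_mod_cast this
  have hlr : 0 ≤ Real.log r := Real.log_nonneg (by exact_mod_cast hr)
  have hlJ : 0 < Real.log J := Real.log_pos (by exact_mod_cast hJ)
  unfold phi phq
  push_cast
  rw [Real.log_mul hr0.ne' hJ0.ne']
  have h1 : 2 / 1125 * ((r : ℝ) * J) ^ 4 / (r : ℝ) ^ 4 = 2 / 1125 * (J : ℝ) ^ 4 := by
    field_simp
  have h2 : ε / (2 * (r : ℝ) ^ 8) * ((r : ℝ) * J) ^ 8 * (Real.log r + Real.log J) =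
      ε * (J : ℝ) ^ 8 * ((Real.log r + Real.log J) / 2) := by
    field_simp
  rw [h1, h2]
  have h3 : v ^ 2 / (4 * (Real.log r + Real.log J)) ≤ v ^ 2 / (4 * Real.log J) := by
    apply div_le_div_of_nonneg_left (by positivity) (by positivity)
    linarith
  have h4 : ε * (J : ℝ) ^ 8 * ((Real.log r + Real.log J) / 2) ≤ ε * (J : ℝ) ^ 8 * Real.log J := by
    apply mul_le_mul_of_nonneg_left _ (by positivity)
    linarith
  linarith

theorem pf_FTF (hRANK : T_RANK) (hMIN : Pool.Agent.H25.EE.T_MIN) (hDEGH : T_DEGH) (hUPP : T_UPP)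
    (hEVD : T_EVD) : T_FTF := by
  intro O X0 π ε hε
  have hr := π.hr
  have hr0 : (0 : ℝ) < π.r := by exact_mod_cast hr
  obtain ⟨J1, h1⟩ := hRANK O X0 π
  obtain ⟨J2, h2⟩ := hDEGH O X0 π
  obtain ⟨J3, h3⟩ := hUPP O X0 π (ε / (2 * (π.r : ℝ) ^ 8)) (by positivity)
  obtain ⟨J4, h4⟩ := Filter.eventually_atTop.1
    ((Real.tendsto_log_atTop.comp tendsto_natCast_atTop_atTop).eventually_ge_atTop
      (2278 * Real.log π.r))
  refine ⟨max (max J1 J2) (max J3 (max J4 2)), fun J hJ α hα => ?_⟩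
  have hJ1 : J1 ≤ J := le_trans (le_trans (le_max_left _ _) (le_max_left _ _)) hJ
  have hJ2 : J2 ≤ J := le_trans (le_trans (le_max_right _ _) (le_max_left _ _)) hJ
  have hJ3 : J3 ≤ J := le_trans (le_trans (le_max_left _ _) (le_max_right _ _)) hJ
  have hJ4 : J4 ≤ J :=
    le_trans (le_trans (le_trans (le_max_left _ _) (le_max_right _ _)) (le_max_right _ _)) hJ
  have hJ5 : 2 ≤ J :=
    le_trans (le_trans (le_trans (le_max_right _ _) (le_max_right _ _)) (le_max_right _ _)) hJ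
  have hlog : 2278 * Real.log π.r ≤ Real.log J := h4 J hJ4
  have hrJ : J ≤ π.r * J := Nat.le_mul_of_pos_left J (by omega)
  have hα' : ‖α - X0‖ ≤ Real.exp (-(thq (qq π) (π.r * J))) := by
    refine hα.trans (Real.exp_le_exp.2 (neg_le_neg ?_))
    exact thq_le π.r hr J (by omega) hlog
  classical
  obtain ⟨g, hg, hdet⟩ := hMIN {a // a ∈ Ix (t0 π) (π.r * J)} {b // b ∈ Ix (t1 π) (π.r * J)}
    (fun a b => ev (mm π (π.r * J) a.1 b.1) α) (by
      intro c hc
      funext a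
      have h := h1 (π.r * J) (hJ1.trans hrJ) α hα'
        (fun a => if h : a ∈ Ix (t0 π) (π.r * J) then c ⟨a, h⟩ else 0) (by
          intro b hb
          rw [← Finset.sum_coe_sort, ← hc ⟨b, hb⟩]
          refine Finset.sum_congr rfl fun a _ => ?_
          rw [dif_pos a.2]) a.1 a.2
      simpa [dif_pos a.2] using h)
  obtain ⟨hd, hl⟩ := h2 (π.r * J) (hJ2.trans hrJ) g hg
  refine ⟨DD π (π.r * J) g, ?_, ?_, ?_, ?_⟩
  · refine hd.trans (le_of_eq ?_)
    unfold bN qq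
    push_cast
    field_simp
  · refine hl.trans (Real.exp_le_exp.2 ?_)
    exact hgt_le π.r hr J (by omega) hlog
  · rw [hEVD]
    exact hdet
  · intro v hv x hx
    refine (h3 (π.r * J) (hJ3.trans hrJ) g v hv x hx).trans (Real.exp_le_exp.2 (neg_le_neg ?_))
    exact phi_le π.r hr J hJ5 ε v hε hlog

end Pool.Agent.H34.EI.FTF
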