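import Pool.Agent.H51.EI.TargetsC

/-! Row RAT of the board `exi_modules`: the elements of the field generated by `O` and `X0`. -/

set_option autoImplicit false

namespace Pool.Agent.H34.EI.RAT

open Pool.Agent.H51.EI Polynomial

variable {O : Subring ℂ}

private lemma ev_add (P Q : (↥O)[X]) (x : ℂ) : ev (P + Q) x = ev P x + ev Q x := by
  simp [ev, toC]

private lemma ev_mul (P Q : (↥O)[X]) (x : ℂ) : ev (P * Q) x = ev P x * ev Q x := by
  simp [ev, toC]

private lemma ev_neg (P : (↥O)[X]) (x : ℂ) : ev (-P) x = -ev P x := by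
  simp [ev, toC]

private lemma ev_C (a : O) (x : ℂ) : ev (C a) x = (a : ℂ) := by
  simp [ev, toC]

private lemma ev_X (x : ℂ) : ev (X : (↥O)[X]) x = x := by
  simp [ev, toC]

private lemma ev_one (x : ℂ) : ev (1 : (↥O)[X]) x = 1 := by
  simp [ev, toC]

private lemma ev_zero (x : ℂ) : ev (0 : (↥O)[X]) x = 0 := by
  simp [ev, toC]

/-- the quotients form a field -/
private def QF (O : Subring ℂ) (X0 : ℂ) : Subfield ℂ where
  carrier := {z | ∃ P Q : (↥O)[X], ev Q X0 ≠ 0 ∧ z = ev P X0 / ev Q X0}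
  mul_mem' := by
    rintro a b ⟨P, Q, hQ, rfl⟩ ⟨P', Q', hQ', rfl⟩
    refine ⟨P * P', Q * Q', ?_, ?_⟩
    · rw [ev_mul]
      exact mul_ne_zero hQ hQ'
    · rw [ev_mul, ev_mul, div_mul_div_comm]
  one_mem' := ⟨1, 1, by rw [ev_one]; exact one_ne_zero, by rw [ev_one, div_one]⟩
  add_mem' := by
    rintro a b ⟨P, Q, hQ, rfl⟩ ⟨P', Q', hQ', rfl⟩
    refine ⟨P * Q' + Q * P', Q * Q', ?_, ?_⟩
    · rw [ev_mul]
      exact mul_ne_zero hQ hQ'
    · rw [ev_add, ev_mul, ev_mul, ev_mul, div_add_div _ _ hQ hQ']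
  zero_mem' := ⟨0, 1, by rw [ev_one]; exact one_ne_zero, by rw [ev_zero, zero_div]⟩
  neg_mem' := by
    rintro a ⟨P, Q, hQ, rfl⟩
    exact ⟨-P, Q, hQ, by rw [ev_neg, neg_div]⟩
  inv_mem' := by
    rintro a ⟨P, Q, hQ, rfl⟩
    by_cases hP : ev P X0 = 0
    · refine ⟨0, 1, by rw [ev_one]; exact one_ne_zero, ?_⟩
      rw [ev_zero, hP, zero_div, zero_div, inv_zero]
    · exact ⟨Q, P, hP, by rw [inv_div]⟩

theorem pf_RAT : T_RAT := by
  intro O X0 z hz
  have hle : KX O X0 ≤ QF O X0 := by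
    unfold KX
    rw [Subfield.closure_le]
    rintro x (hx | hx)
    · refine ⟨C ⟨x, hx⟩, 1, by rw [ev_one]; exact one_ne_zero, ?_⟩
      rw [ev_one, div_one, ev_C]
    · rw [Set.mem_singleton_iff] at hx
      refine ⟨X, 1, by rw [ev_one]; exact one_ne_zero, ?_⟩
      rw [ev_one, div_one, ev_X, hx]
  exact hle hz

end Pool.Agent.H34.EI.RAT
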